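import Pool.Agent.H964.CW.Stm2

/-! # Project CW (helper964), task LG: logarithm of a small centred random variable -/

set_option autoImplicit false

open MeasureTheory ProbabilityTheory Filter Finset

namespace Pool.Agent.H200.CW

open Pool.Agent.H964.QC Pool.Agent.H964.CW

namespace LG

/-! ## Elementary inequalities for the logarithm -/

theorem hasDeriv_G {x : ℝ} (hx : -1 < x) :
    HasDerivAt (fun y : ℝ => Real.log (1 + y) - y + y ^ 2 / 2) (x ^ 2 / (1 + x)) x := by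
  have h1 : HasDerivAt (fun y : ℝ => 1 + y) 1 x := by
    have := (hasDerivAt_id x).const_add 1
    exact this
  have h2 : HasDerivAt (fun y : ℝ => Real.log (1 + y)) (1 / (1 + x)) x := h1.log (by linarith)
  have h3 : HasDerivAt (fun y : ℝ => y ^ 2 / 2) x x := by
    have := ((hasDerivAt_id x).pow 2).div_const 2
    refine this.congr_deriv ?_
    simp
  have h4 := (h2.sub (hasDerivAt_id x)).add h3
  refine h4.congr_deriv ?_
  have : 1 + x ≠ 0 := by linarith
  field_simp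
  ring

theorem mono_G : MonotoneOn (fun y : ℝ => Real.log (1 + y) - y + y ^ 2 / 2)
    (Set.Ici (-(1 / 2))) := by
  refine monotoneOn_of_deriv_nonneg (convex_Ici _) ?_ ?_ ?_
  · intro x hx
    have hx' : -1 < x := by
      have : -(1 / 2) ≤ x := hx
      linarith
    exact (hasDeriv_G hx').continuousAt.continuousWithinAt
  · intro x hx
    rw [interior_Ici] at hx
    have hx' : -1 < x := by
      have : -(1 / 2) < x := hx
      linarith
    exact (hasDeriv_G hx').differentiableAt.differentiableWithinAt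
  · intro x hx
    rw [interior_Ici] at hx
    have hx' : -(1 / 2) < x := hx
    rw [(hasDeriv_G (by linarith)).deriv]
    have : 0 < 1 + x := by linarith
    positivity

theorem hasDeriv_H {x : ℝ} (hx : -1 < x) :
    HasDerivAt (fun y : ℝ => Real.log (1 + y) - y + y ^ 2 / 2 - y ^ 3)
      (x ^ 2 / (1 + x) - 3 * x ^ 2) x := by
  have h1 : HasDerivAt (fun y : ℝ => y ^ 3) (3 * x ^ 2) x := by
    have := hasDerivAt_pow 3 x
    exact this
  exact (hasDeriv_G hx).sub h1

theorem anti_H : AntitoneOn (fun y : ℝ => Real.log (1 + y) - y + y ^ 2 / 2 - y ^ 3)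
    (Set.Ici (-(1 / 2))) := by
  refine antitoneOn_of_deriv_nonpos (convex_Ici _) ?_ ?_ ?_
  · intro x hx
    have hx' : -1 < x := by
      have : -(1 / 2) ≤ x := hx
      linarith
    exact (hasDeriv_H hx').continuousAt.continuousWithinAt
  · intro x hx
    rw [interior_Ici] at hx
    have hx' : -1 < x := by
      have : -(1 / 2) < x := hx
      linarith
    exact (hasDeriv_H hx').differentiableAt.differentiableWithinAt
  · intro x hx
    rw [interior_Ici] at hx
    have hx' : -(1 / 2) < x := hx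
    rw [(hasDeriv_H (by linarith)).deriv]
    have h1 : 0 < 1 + x := by linarith
    have h2 : x ^ 2 / (1 + x) ≤ 3 * x ^ 2 := by
      rw [div_le_iff₀ h1]
      nlinarith [sq_nonneg x]
    linarith

theorem taylor {x : ℝ} (hx : -(1 / 2) ≤ x) :
    |Real.log (1 + x) - x + x ^ 2 / 2| ≤ |x| ^ 3 := by
  have h0 : (0 : ℝ) ∈ Set.Ici (-(1 / 2) : ℝ) := by
    show -(1 / 2) ≤ (0 : ℝ)
    norm_num
  have hxm : x ∈ Set.Ici (-(1 / 2) : ℝ) := hx
  rcases le_total 0 x with h | h
  · have h1 := mono_G h0 hxm h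
    have h2 := anti_H h0 hxm h
    simp only [add_zero, Real.log_one] at h1 h2
    rw [abs_of_nonneg h, abs_of_nonneg (by linarith)]
    linarith
  · have h1 := mono_G hxm h0 h
    have h2 := anti_H hxm h0 h
    simp only [add_zero, Real.log_one] at h1 h2
    rw [abs_of_nonpos h, abs_of_nonpos (by linarith)]
    have : (-x) ^ 3 = -(x ^ 3) := by ring
    rw [this]
    linarith

theorem dist_bound {x : ℝ} (hx : -(1 / 2) ≤ x) : |Real.log (1 + x) - x| ≤ x ^ 2 := by
  have h1 := taylor hx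
  have h2 : Real.log (1 + x) ≤ x := by
    have := Real.log_le_sub_one_of_pos (show (0 : ℝ) < 1 + x by linarith)
    linarith
  rw [abs_of_nonpos (by linarith)]
  rcases le_total 0 x with h | h
  · have h0 : (0 : ℝ) ∈ Set.Ici (-(1 / 2) : ℝ) := by
      show -(1 / 2) ≤ (0 : ℝ)
      norm_num
    have h3 := mono_G h0 hx h
    simp only [add_zero, Real.log_one] at h3
    nlinarith [sq_nonneg x]
  · have h3 := (abs_le.mp h1).1
    have h4 : |x| ^ 3 ≤ 1 / 2 * x ^ 2 := by
      rw [abs_of_nonpos h]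
      nlinarith [sq_nonneg x]
    linarith

theorem log_sq_le {x : ℝ} (hx : -(1 / 2) ≤ x) : (Real.log (1 + x)) ^ 2 ≤ 4 * x ^ 2 := by
  have h2 : Real.log (1 + x) ≤ x := by
    have := Real.log_le_sub_one_of_pos (show (0 : ℝ) < 1 + x by linarith)
    linarith
  rcases le_total 0 x with h | h
  · have h3 : 0 ≤ Real.log (1 + x) := Real.log_nonneg (by linarith)
    nlinarith
  · have h3 := (abs_le.mp (dist_bound hx)).1
    have h4 : 2 * x ≤ Real.log (1 + x) := by nlinarith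
    have h5 : Real.log (1 + x) + 2 * x ≤ 0 := by linarith
    nlinarith [mul_nonneg (sub_nonneg.mpr h4) (neg_nonneg.mpr h5)]

theorem log_sq_ge {x : ℝ} (hx : -(1 / 2) ≤ x) : x ^ 2 - 2 * |x| ^ 3 ≤ (Real.log (1 + x)) ^ 2 := by
  have h3 := dist_bound hx
  have h4 : |x * (Real.log (1 + x) - x)| ≤ |x| * x ^ 2 := by
    rw [abs_mul]
    exact mul_le_mul_of_nonneg_left h3 (abs_nonneg x)
  have h5 : |x| * x ^ 2 = |x| ^ 3 := by
    rw [← sq_abs x]
    ring
  rw [h5] at h4
  have h6 := (abs_le.mp h4).1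
  nlinarith [sq_nonneg (Real.log (1 + x) - x)]

/-- Cauchy-Schwarz -/
theorem cs {Ω : Type} [MeasurableSpace Ω] {μ : Measure Ω} {F G : Ω → ℝ}
    (h1 : Integrable (fun ω => F ω ^ 2) μ) (h2 : Integrable (fun ω => G ω ^ 2) μ)
    (h3 : Integrable (fun ω => F ω * G ω) μ) :
    (∫ ω, F ω * G ω ∂μ) ^ 2 ≤ (∫ ω, F ω ^ 2 ∂μ) * ∫ ω, G ω ^ 2 ∂μ := by
  have h := discrim_le_zero (a := ∫ ω, F ω ^ 2 ∂μ) (b := -(2 * ∫ ω, F ω * G ω ∂μ))
    (c := ∫ ω, G ω ^ 2 ∂μ) (fun x => by
      have e1 : ∀ ω, (x * F ω - G ω) ^ 2 = x ^ 2 * F ω ^ 2 - 2 * x * (F ω * G ω) + G ω ^ 2 :=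
        fun ω => by ring
      have e2 : 0 ≤ ∫ ω, (x * F ω - G ω) ^ 2 ∂μ := integral_nonneg fun ω => sq_nonneg _
      have e3 : ∫ ω, (x * F ω - G ω) ^ 2 ∂μ = x ^ 2 * ∫ ω, F ω ^ 2 ∂μ -
          2 * x * ∫ ω, F ω * G ω ∂μ + ∫ ω, G ω ^ 2 ∂μ := by
        simp only [e1]
        have i1 : Integrable (fun ω => x ^ 2 * F ω ^ 2 - 2 * x * (F ω * G ω)) μ :=
          (h1.const_mul _).sub (h3.const_mul _)
        rw [integral_add i1 h2,
          integral_sub (h1.const_mul _) (h3.const_mul _), integral_const_mul, integral_const_mul]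
      rw [e3] at e2
      nlinarith)
  unfold discrim at h
  nlinarith

end LG

open LG in
/-- **LG** -/
theorem t_LG : S_LG := by
  refine ⟨4000, by norm_num, ?_⟩
  intro Ω _ P _ X v f τ hX hgt h4 h1 hv hv1 hf hf1 hτ hL hA
  set A : Set Ω := {ω | X ω < -(1 / 2)} with hAdef
  have hAm : MeasurableSet A := measurableSet_lt hX measurable_const
  have hAc : ∀ ω ∈ Aᶜ, -(1 / 2) ≤ X ω := fun ω hω => not_lt.mp hω
  -- integrability
  have iX2 : Integrable (fun ω => X ω ^ 2) P := by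
    refine Integrable.mono' (h4.add (integrable_const 1)) (hX.pow_const 2).aestronglyMeasurable
      (Eventually.of_forall fun ω => ?_)
    rw [Real.norm_eq_abs, abs_of_nonneg (sq_nonneg _)]
    show X ω ^ 2 ≤ X ω ^ 4 + 1
    nlinarith [sq_nonneg (X ω ^ 2 - 1)]
  have iX1 : Integrable X P := by
    refine Integrable.mono' (iX2.add (integrable_const 1)) hX.aestronglyMeasurable
      (Eventually.of_forall fun ω => ?_)
    rw [Real.norm_eq_abs]
    show |X ω| ≤ X ω ^ 2 + 1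
    rw [← sq_abs (X ω)]
    nlinarith [sq_nonneg (|X ω| - 1)]
  have iX3 : Integrable (fun ω => |X ω| ^ 3) P := by
    refine Integrable.mono' (h4.add iX2) ((continuous_abs.measurable.comp hX).pow_const
      3).aestronglyMeasurable (Eventually.of_forall fun ω => ?_)
    rw [Real.norm_eq_abs, abs_of_nonneg (by positivity)]
    show |X ω| ^ 3 ≤ X ω ^ 4 + X ω ^ 2
    have e1 : X ω ^ 4 = |X ω| ^ 4 := by
      rw [← abs_pow, abs_of_nonneg (by positivity)]
    have e2 : X ω ^ 2 = |X ω| ^ 2 := (sq_abs _).symm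
    rw [e1, e2]
    nlinarith [sq_nonneg (|X ω| ^ 2 - |X ω|), abs_nonneg (X ω), sq_nonneg (|X ω|),
      pow_nonneg (abs_nonneg (X ω)) 3, pow_nonneg (abs_nonneg (X ω)) 4]
  have iL2 : Integrable (fun ω => (Real.log (1 + X ω)) ^ 2) P := hL.integrable_sq
  have iL1 : Integrable (fun ω => Real.log (1 + X ω)) P := hL.integrable (by norm_num)
  -- signs
  have hv0 : 0 ≤ v := le_trans (integral_nonneg fun ω => sq_nonneg (X ω)) hv
  have hf0 : 0 ≤ f := le_trans (integral_nonneg fun ω => by positivity) hf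
  have hI4 : 0 ≤ ∫ ω, X ω ^ 4 ∂P := integral_nonneg fun ω => by positivity
  have hI2 : 0 ≤ ∫ ω, X ω ^ 2 ∂P := integral_nonneg fun ω => sq_nonneg _
  -- the third moment
  have hI3 : ∫ ω, |X ω| ^ 3 ∂P ≤ Real.sqrt (v * f) := by
    have e1 : ∀ ω, |X ω| * X ω ^ 2 = |X ω| ^ 3 := fun ω => by
      rw [← sq_abs (X ω)]
      ring
    have e2 := cs (μ := P) (F := fun ω => |X ω|) (G := fun ω => X ω ^ 2)
      (by simp only [sq_abs]; exact iX2)
      (by
        have : (fun ω => (X ω ^ 2) ^ 2) = fun ω => X ω ^ 4 := by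
          funext ω
          ring
        rw [this]
        exact h4)
      (by simp only [e1]; exact iX3)
    simp only [e1, sq_abs] at e2
    have e3 : (fun ω => (X ω ^ 2) ^ 2) = fun ω => X ω ^ 4 := by
      funext ω
      ring
    rw [e3] at e2
    refine Real.le_sqrt_of_sq_le (e2.trans ?_)
    exact mul_le_mul hv hf hI4 hv0
  -- the probability of the bad set
  have hPA : P.real A ≤ 16 * f := by
    have e1 : P.real A = ∫ _ω in A, (1 : ℝ) ∂P := by
      rw [integral_const, measureReal_restrict_apply_univ, smul_eq_mul, mul_one]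
    have e2 : ∫ _ω in A, (1 : ℝ) ∂P ≤ ∫ ω in A, 16 * X ω ^ 4 ∂P := by
      refine setIntegral_mono_on (integrable_const 1).integrableOn (h4.const_mul 16).integrableOn
        hAm fun ω hω => ?_
      have h5 : X ω < -(1 / 2) := hω
      have h6 : 1 / 4 ≤ X ω ^ 2 := by nlinarith
      show (1 : ℝ) ≤ 16 * X ω ^ 4
      have h7 : X ω ^ 4 = (X ω ^ 2) ^ 2 := by ring
      rw [h7]
      nlinarith
    have e3 : ∫ ω in A, 16 * X ω ^ 4 ∂P ≤ ∫ ω, 16 * X ω ^ 4 ∂P :=
      setIntegral_le_integral (h4.const_mul 16) (Eventually.of_forall fun ω => by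
        show (0 : ℝ) ≤ 16 * X ω ^ 4
        positivity)
    have e4 : ∫ ω, 16 * X ω ^ 4 ∂P = 16 * ∫ ω, X ω ^ 4 ∂P := integral_const_mul _ _
    rw [e1]
    linarith
  have hPA0 : 0 ≤ P.real A := measureReal_nonneg
  -- the first moment of the logarithm on the bad set
  have hLA : ∫ ω in A, |Real.log (1 + X ω)| ∂P ≤ 4 * Real.sqrt (f * τ) := by
    have e1 := cs (μ := P.restrict A) (F := fun ω => |Real.log (1 + X ω)|) (G := fun _ => (1 : ℝ))
      (by simp only [sq_abs]; exact iL2.integrableOn) (by simp)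
      (by simp only [mul_one]; exact iL1.abs.integrableOn)
    simp only [mul_one, sq_abs, one_pow] at e1
    have e2 : ∫ _ω in A, (1 : ℝ) ∂P = P.real A := by
      rw [integral_const, measureReal_restrict_apply_univ, smul_eq_mul, mul_one]
    rw [e2] at e1
    have e3 : 4 * Real.sqrt (f * τ) = Real.sqrt (16 * (f * τ)) := by
      have h16 : Real.sqrt 16 = 4 := by
        rw [show (16 : ℝ) = 4 ^ 2 by norm_num]
        exact Real.sqrt_sq (by norm_num)
      rw [Real.sqrt_mul (show (0 : ℝ) ≤ 16 by norm_num), h16]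
    rw [e3]
    refine Real.le_sqrt_of_sq_le (e1.trans ?_)
    calc (∫ ω in A, (Real.log (1 + X ω)) ^ 2 ∂P) * P.real A ≤ τ * (16 * f) :=
          mul_le_mul hA hPA hPA0 hτ
      _ = 16 * (f * τ) := by ring
  -- part 1
  have hsplit : ∫ ω, (Real.log (1 + X ω)) ^ 2 ∂P = ∫ ω in A, (Real.log (1 + X ω)) ^ 2 ∂P +
      ∫ ω in Aᶜ, (Real.log (1 + X ω)) ^ 2 ∂P := (integral_add_compl hAm iL2).symm
  have hp1 : ∫ ω in Aᶜ, (Real.log (1 + X ω)) ^ 2 ∂P ≤ 4 * v := by
    have e1 : ∫ ω in Aᶜ, (Real.log (1 + X ω)) ^ 2 ∂P ≤ ∫ ω in Aᶜ, 4 * X ω ^ 2 ∂P :=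
      setIntegral_mono_on iL2.integrableOn (iX2.const_mul 4).integrableOn hAm.compl
        fun ω hω => log_sq_le (hAc ω hω)
    have e2 : ∫ ω in Aᶜ, 4 * X ω ^ 2 ∂P ≤ ∫ ω, 4 * X ω ^ 2 ∂P :=
      setIntegral_le_integral (iX2.const_mul 4) (Eventually.of_forall fun ω => by
        show (0 : ℝ) ≤ 4 * X ω ^ 2
        positivity)
    have e3 : ∫ ω, 4 * X ω ^ 2 ∂P = 4 * ∫ ω, X ω ^ 2 ∂P := integral_const_mul _ _
    linarith
  -- part 2
  have hp2 : |∫ ω, Real.log (1 + X ω) ∂P + 1 / 2 * ∫ ω, X ω ^ 2 ∂P| ≤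
      Real.sqrt (v * f) + 24 * f + 4 * Real.sqrt (f * τ) := by
    have i1 : Integrable (fun ω => Real.log (1 + X ω) - X ω + X ω ^ 2 / 2) P :=
      (iL1.sub iX1).add (iX2.div_const 2)
    have e1 : ∫ ω, (Real.log (1 + X ω) - X ω + X ω ^ 2 / 2) ∂P =
        ∫ ω, Real.log (1 + X ω) ∂P + 1 / 2 * ∫ ω, X ω ^ 2 ∂P := by
      have i2 : Integrable (fun ω => Real.log (1 + X ω) - X ω) P := iL1.sub iX1
      rw [integral_add i2 (iX2.div_const 2), integral_sub iL1 iX1, h1,
        integral_div]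
      ring
    rw [← e1]
    have e2 : |∫ ω, (Real.log (1 + X ω) - X ω + X ω ^ 2 / 2) ∂P| ≤
        ∫ ω, |Real.log (1 + X ω) - X ω + X ω ^ 2 / 2| ∂P := by
      have := norm_integral_le_integral_norm (μ := P)
        (fun ω => Real.log (1 + X ω) - X ω + X ω ^ 2 / 2)
      simpa only [Real.norm_eq_abs] using this
    refine e2.trans ?_
    rw [← integral_add_compl hAm i1.abs]
    have e3 : ∫ ω in Aᶜ, |Real.log (1 + X ω) - X ω + X ω ^ 2 / 2| ∂P ≤ Real.sqrt (v * f) := by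
      have e4 : ∫ ω in Aᶜ, |Real.log (1 + X ω) - X ω + X ω ^ 2 / 2| ∂P ≤
          ∫ ω in Aᶜ, |X ω| ^ 3 ∂P :=
        setIntegral_mono_on i1.abs.integrableOn iX3.integrableOn hAm.compl
          fun ω hω => taylor (hAc ω hω)
      have e5 : ∫ ω in Aᶜ, |X ω| ^ 3 ∂P ≤ ∫ ω, |X ω| ^ 3 ∂P :=
        setIntegral_le_integral iX3 (Eventually.of_forall fun ω => by
          show (0 : ℝ) ≤ |X ω| ^ 3
          positivity)
      linarith
    have e6 : ∫ ω in A, |Real.log (1 + X ω) - X ω + X ω ^ 2 / 2| ∂P ≤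
        24 * f + 4 * Real.sqrt (f * τ) := by
      have e7 : ∫ ω in A, |Real.log (1 + X ω) - X ω + X ω ^ 2 / 2| ∂P ≤
          ∫ ω in A, (|Real.log (1 + X ω)| + 3 / 2) ∂P := by
        refine setIntegral_mono_on i1.abs.integrableOn
          (iL1.abs.add (integrable_const (3 / 2))).integrableOn hAm fun ω hω => ?_
        have h5 : X ω < -(1 / 2) := hω
        have h6 := hgt ω
        have h7 : |-X ω + X ω ^ 2 / 2| ≤ 3 / 2 := by
          rw [abs_le]
          constructor <;> nlinarith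
        have h8 : Real.log (1 + X ω) - X ω + X ω ^ 2 / 2 =
            Real.log (1 + X ω) + (-X ω + X ω ^ 2 / 2) := by ring
        rw [h8]
        exact (abs_add_le _ _).trans (by linarith)
      have e8 : ∫ ω in A, (|Real.log (1 + X ω)| + 3 / 2) ∂P =
          ∫ ω in A, |Real.log (1 + X ω)| ∂P + 3 / 2 * P.real A := by
        rw [integral_add iL1.abs.integrableOn (integrable_const (3 / 2)).integrableOn,
          integral_const, measureReal_restrict_apply_univ, smul_eq_mul]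
        ring
      linarith
    linarith
  -- part 3
  have hp3 : ∫ ω, X ω ^ 2 ∂P - 16 * f - 2 * Real.sqrt (v * f) ≤
      ∫ ω, (Real.log (1 + X ω)) ^ 2 ∂P := by
    have e1 : 0 ≤ ∫ ω in A, (Real.log (1 + X ω)) ^ 2 ∂P := integral_nonneg fun ω => sq_nonneg _
    have e2 : ∫ ω in Aᶜ, (X ω ^ 2 - 2 * |X ω| ^ 3) ∂P ≤
        ∫ ω in Aᶜ, (Real.log (1 + X ω)) ^ 2 ∂P :=
      setIntegral_mono_on (iX2.sub (iX3.const_mul 2)).integrableOn iL2.integrableOn hAm.compl
        fun ω hω => log_sq_ge (hAc ω hω)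
    have e3 : ∫ ω in Aᶜ, (X ω ^ 2 - 2 * |X ω| ^ 3) ∂P =
        ∫ ω in Aᶜ, X ω ^ 2 ∂P - 2 * ∫ ω in Aᶜ, |X ω| ^ 3 ∂P := by
      rw [integral_sub iX2.integrableOn (iX3.const_mul 2).integrableOn, integral_const_mul]
    have e4 : ∫ ω in Aᶜ, |X ω| ^ 3 ∂P ≤ ∫ ω, |X ω| ^ 3 ∂P :=
      setIntegral_le_integral iX3 (Eventually.of_forall fun ω => by
        show (0 : ℝ) ≤ |X ω| ^ 3
        positivity)
    have e5 : ∫ ω, X ω ^ 2 ∂P = ∫ ω in A, X ω ^ 2 ∂P + ∫ ω in Aᶜ, X ω ^ 2 ∂P :=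
      (integral_add_compl hAm iX2).symm
    have e6 : ∫ ω in A, X ω ^ 2 ∂P ≤ P.real A := by
      have e7 : ∫ ω in A, X ω ^ 2 ∂P ≤ ∫ _ω in A, (1 : ℝ) ∂P := by
        refine setIntegral_mono_on iX2.integrableOn (integrable_const 1).integrableOn hAm
          fun ω hω => ?_
        have h5 : X ω < -(1 / 2) := hω
        have h6 := hgt ω
        nlinarith
      refine e7.trans (le_of_eq ?_)
      rw [integral_const, measureReal_restrict_apply_univ, smul_eq_mul, mul_one]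
    linarith
  have hvar : ∫ ω, (Real.log (1 + X ω) - ∫ ω', Real.log (1 + X ω') ∂P) ^ 2 ∂P =
      ∫ ω, (Real.log (1 + X ω)) ^ 2 ∂P - (∫ ω, Real.log (1 + X ω) ∂P) ^ 2 := by
    set c := ∫ ω', Real.log (1 + X ω') ∂P with hc
    have e1 : ∀ ω, (Real.log (1 + X ω) - c) ^ 2 =
        (Real.log (1 + X ω)) ^ 2 - 2 * c * Real.log (1 + X ω) + c ^ 2 := fun ω => by ring
    simp only [e1]
    have i2 : Integrable (fun ω => (Real.log (1 + X ω)) ^ 2 - 2 * c * Real.log (1 + X ω)) P :=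
      iL2.sub (iL1.const_mul _)
    rw [integral_add i2 (integrable_const _),
      integral_sub iL2 (iL1.const_mul _), integral_const_mul, integral_const, ← hc,
      probReal_univ, smul_eq_mul]
    ring
  have hs1 : 0 ≤ Real.sqrt (v * f) := Real.sqrt_nonneg _
  have hs2 : 0 ≤ Real.sqrt (f * τ) := Real.sqrt_nonneg _
  have hq1 : Real.sqrt (v * f) ^ 2 = v * f := Real.sq_sqrt (by positivity)
  have hq2 : Real.sqrt (f * τ) ^ 2 = f * τ := Real.sq_sqrt (by positivity)
  have hvf1 : v * f ≤ 1 := by nlinarith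
  have hs3 : Real.sqrt (v * f) ≤ 1 := by
    rw [Real.sqrt_le_left (by norm_num)]
    linarith
  refine ⟨by linarith, by linarith, ?_⟩
  rw [hvar]
  have hEL : (∫ ω, Real.log (1 + X ω) ∂P) ^ 2 ≤
      v ^ 2 / 2 + 2 * (Real.sqrt (v * f) + 24 * f + 4 * Real.sqrt (f * τ)) ^ 2 := by
    have e1 := abs_le.mp hp2
    set E := ∫ ω, Real.log (1 + X ω) ∂P
    set S := ∫ ω, X ω ^ 2 ∂P
    set R := Real.sqrt (v * f) + 24 * f + 4 * Real.sqrt (f * τ) with hR
    have hR0 : 0 ≤ R := by positivity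
    have e2 : |E| ≤ v / 2 + R := by
      rw [abs_le]
      constructor <;> linarith
    have e3 : E ^ 2 ≤ (v / 2 + R) ^ 2 := by
      rw [← sq_abs E]
      exact pow_le_pow_left₀ (abs_nonneg _) e2 2
    nlinarith [sq_nonneg (v / 2 - R)]
  have hR2 : (Real.sqrt (v * f) + 24 * f + 4 * Real.sqrt (f * τ)) ^ 2 ≤
      3 * (v * f + 576 * f ^ 2 + 16 * (f * τ)) := by
    nlinarith [sq_nonneg (Real.sqrt (v * f) - 24 * f),
      sq_nonneg (Real.sqrt (v * f) - 4 * Real.sqrt (f * τ)),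
      sq_nonneg (24 * f - 4 * Real.sqrt (f * τ))]
  have hb1 : v * f ≤ Real.sqrt (v * f) := by
    nlinarith
  have hb2 : f ^ 2 ≤ f := by nlinarith
  have hb3 : f * τ ≤ τ := by nlinarith
  nlinarith [sq_nonneg v]

end Pool.Agent.H200.CW
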