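import Pool.Agent.H964.CW.Stm

/-! # Project CW (helper964), task LTS: lower tail for good weights, raw form -/

set_option autoImplicit false

open MeasureTheory ProbabilityTheory Filter Finset

namespace Pool.Agent.H200.CW

open Pool.Agent.H964.QC Pool.Agent.H964.CW

/-! ## Elementary sums -/

theorem sum_half (T : ℕ) : ∑ n ∈ Finset.Icc 1 T, (1 / 2 : ℝ) ^ n ≤ 1 - (1 / 2) ^ T := by
  induction T with
  | zero => simp
  | succ k ih =>
    rw [Finset.sum_Icc_succ_top (by omega), pow_succ]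
    linarith

theorem sum_inv_sqrt (N : ℕ) : ∑ n ∈ Finset.Icc 1 N, 1 / Real.sqrt n ≤ 2 * Real.sqrt N := by
  induction N with
  | zero => simp
  | succ k ih =>
    rw [Finset.sum_Icc_succ_top (by omega)]
    have h1 : 0 ≤ Real.sqrt (k : ℝ) := Real.sqrt_nonneg _
    have h2 : 0 < Real.sqrt ((k + 1 : ℕ) : ℝ) := Real.sqrt_pos.mpr (by positivity)
    have h3 : Real.sqrt (k : ℝ) ^ 2 = k := Real.sq_sqrt (by positivity)
    have h4 : Real.sqrt ((k + 1 : ℕ) : ℝ) ^ 2 = ((k + 1 : ℕ) : ℝ) := Real.sq_sqrt (by positivity)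
    have h5 : 1 / Real.sqrt ((k + 1 : ℕ) : ℝ) ≤
        2 * (Real.sqrt ((k + 1 : ℕ) : ℝ) - Real.sqrt (k : ℝ)) := by
      rw [div_le_iff₀ h2]
      push_cast at h4 ⊢
      nlinarith [sq_nonneg (Real.sqrt ((k : ℝ) + 1) - Real.sqrt (k : ℝ))]
    linarith

theorem sum_rr_tail (a k : ℕ) : ∑ n ∈ Finset.Icc (a + 1) (a + k), rr n = RR (a + k) - RR a := by
  induction k with
  | zero => simp
  | succ k ih =>
    have h1 : ∑ n ∈ Finset.Icc (a + 1) (a + (k + 1)), rr n =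
        ∑ n ∈ Finset.Icc (a + 1) (a + k), rr n + rr (a + (k + 1)) := by
      rw [← add_assoc, Finset.sum_Icc_succ_top (by omega)]
    have h2 : RR (a + (k + 1)) = RR (a + k) + rr (a + (k + 1)) := by
      unfold RR
      rw [← add_assoc, Finset.sum_Icc_succ_top (by omega)]
    rw [h1, h2, ih]
    ring

section wts

variable {C0 : ℝ} {N0 M : ℕ} [NeZero M]

/-- the marginal of the first coordinate -/
noncomputable def mg (u : ZMod M × ZMod M → ℝ) (x : ℤ) : ℝ := ∑ z, if X1 z = x then u z else 0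

theorem sum_mg (s : Finset ℤ) (u : ZMod M × ZMod M → ℝ) :
    ∑ x ∈ s, mg u x = ∑ z, if X1 z ∈ s then u z else 0 := by
  unfold mg
  rw [Finset.sum_comm]
  refine Finset.sum_congr rfl fun z _ => ?_
  rw [Finset.sum_ite_eq]

theorem mg_nonneg {u : ZMod M × ZMod M → ℝ} (hu : ∀ z, 0 ≤ u z) (x : ℤ) : 0 ≤ mg u x := by
  unfold mg
  refine Finset.sum_nonneg fun z _ => ?_
  split_ifs
  · exact hu z
  · exact le_rfl

theorem strip_sum (u : ZMod M × ZMod M → ℝ) (lo hi : ℤ) :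
    ∑ z, strip u lo hi z = ∑ x ∈ Finset.Icc lo hi, mg u x := by
  rw [sum_mg]
  refine Finset.sum_congr rfl fun z _ => ?_
  unfold strip
  simp only [Finset.mem_Icc]

theorem strip_nonneg {u : ZMod M × ZMod M → ℝ} (hu : ∀ z, 0 ≤ u z) (lo hi : ℤ)
    (z : ZMod M × ZMod M) : 0 ≤ strip u lo hi z := by
  unfold strip
  split_ifs
  · exact hu z
  · exact le_rfl

theorem strip_le {u : ZMod M × ZMod M → ℝ} (hu : ∀ z, 0 ≤ u z) (lo hi : ℤ)
    (z : ZMod M × ZMod M) : strip u lo hi z ≤ u z := by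
  unfold strip
  split_ifs
  · exact le_rfl
  · exact hu z

end wts

section ovm

variable {V : Type} [Fintype V] [DecidableEq V] {C0 : ℝ} {N0 : ℕ}

theorem ov_mono (W : Wlk V C0 N0) {u w : V → ℝ} (hu : ∀ z, 0 ≤ u z) (huw : ∀ z, u z ≤ w z) (n : ℕ) :
    ov W u n ≤ ov W w n := by
  unfold ov
  refine Finset.sum_le_sum fun z _ => ?_
  have h0 : 0 ≤ wt W u n z := by
    unfold wt
    exact Finset.sum_nonneg fun x _ => mul_nonneg (hu x) (W.K_nonneg _ _ _)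
  have h1 : wt W u n z ≤ wt W w n z := by
    unfold wt
    exact Finset.sum_le_sum fun x _ => mul_le_mul_of_nonneg_right (huw x) (W.K_nonneg _ _ _)
  exact pow_le_pow_left₀ h0 h1 2

theorem ov_nonneg (W : Wlk V C0 N0) (u : V → ℝ) (n : ℕ) : 0 ≤ ov W u n := by
  unfold ov
  exact Finset.sum_nonneg fun z _ => sq_nonneg _

end ovm

/-- the sum of the overlap bounds -/
theorem bb_sum {C0 : ℝ} {N0 M : ℕ} [NeZero M] (hRR : S_RR) (W : Wlk (ZMod M × ZMod M) C0 N0)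
    (u : ZMod M × ZMod M → ℝ) (t T m : ℕ) (B Y s2 μ : ℝ) (hs0 : 0 < s2) (hs1 : s2 ≤ 1 / 4)
    (ht : 1 ≤ t) (hT : 1 ≤ T) (hm : 1 ≤ m) (hB : 1 ≤ B)
    (hY : Y = 1 + Real.log B + Real.log (1 + (T : ℝ) / t) + Real.log m)
    (hbig : (2 : ℝ) ^ 20 * B ^ 2 * (m : ℝ) ^ 8 ≤ t) (hu : ∀ z, 0 ≤ u z)
    (hov : ∀ n : ℕ, 1 ≤ n → n ≤ t → ov W u n ≤ B / Real.sqrt ((n : ℝ) * t))
    (hμ : μ = ∑ z, u z) (hμ1 : 1 / (16 * (m : ℝ) ^ 2) ≤ μ) (hsup : ∀ z, u z ≤ μ) :
    ∑ n ∈ Finset.Icc 1 T, bb W s2 u n ≤ 10 * Y * μ ^ 2 := by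
  have hm' : (1 : ℝ) ≤ m := by exact_mod_cast hm
  have ht' : (1 : ℝ) ≤ t := by exact_mod_cast ht
  have hT' : (1 : ℝ) ≤ T := by exact_mod_cast hT
  have hlB : 0 ≤ Real.log B := Real.log_nonneg hB
  have hlm : 0 ≤ Real.log m := Real.log_nonneg hm'
  have hR1 : 1 ≤ 1 + (T : ℝ) / t := by
    have : 0 ≤ (T : ℝ) / t := by positivity
    linarith
  have hlR : 0 ≤ Real.log (1 + (T : ℝ) / t) := Real.log_nonneg hR1
  have hY1 : 1 ≤ Y := by rw [hY]; linarith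
  have hμ0 : 0 < μ := lt_of_lt_of_le (by positivity) hμ1
  -- the threshold
  set K : ℝ := 2 ^ 20 * B ^ 2 * (m : ℝ) ^ 8 with hK
  have hK0 : 0 < K := by positivity
  set ν : ℝ := t / K with hν
  have hν1 : 1 ≤ ν := by
    rw [hν, le_div_iff₀ hK0]
    linarith
  set n1 : ℕ := ⌊ν⌋₊ with hn1
  have hn1ν : (n1 : ℝ) ≤ ν := Nat.floor_le (by linarith)
  have hn1ν2 : ν < n1 + 1 := Nat.lt_floor_add_one ν
  have hn1_1 : 1 ≤ n1 := Nat.one_le_floor_iff _ |>.mpr hν1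
  have hn1r : (1 : ℝ) ≤ n1 := by exact_mod_cast hn1_1
  have hK1 : 1 ≤ K := by
    rw [hK]
    have h1 : (1 : ℝ) ≤ B ^ 2 := one_le_pow₀ hB
    have h2 : (1 : ℝ) ≤ (m : ℝ) ^ 8 := one_le_pow₀ hm'
    have h3 : (1 : ℝ) ≤ B ^ 2 * (m : ℝ) ^ 8 := by nlinarith
    nlinarith
  have hνt : ν ≤ t := by
    rw [hν]
    exact div_le_self (by positivity) hK1
  have hn1t : n1 ≤ t := by
    have : (n1 : ℝ) ≤ t := hn1ν.trans hνt
    exact_mod_cast this
  -- squares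
  have hsq : ∑ z, (u z) ^ 2 ≤ μ ^ 2 := by
    calc ∑ z, (u z) ^ 2 ≤ ∑ z, μ * u z := by
          refine Finset.sum_le_sum fun z _ => ?_
          rw [sq]
          exact mul_le_mul_of_nonneg_right (hsup z) (hu z)
      _ = μ ^ 2 := by rw [← Finset.mul_sum, ← hμ, sq]
  have hsq0 : 0 ≤ ∑ z, (u z) ^ 2 := Finset.sum_nonneg fun z _ => sq_nonneg _
  -- pointwise bound
  have hpt : ∀ n ∈ Finset.Icc 1 T, bb W s2 u n ≤
      (if n ≤ n1 then B * Real.sqrt 2 / Real.sqrt t * (1 / Real.sqrt n) else 0) +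
      (1 / 2) ^ n * μ ^ 2 + (if n ≤ n1 then 0 else μ ^ 2 * rr n) := by
    intro n hn
    have hn1' : 1 ≤ n := (Finset.mem_Icc.mp hn).1
    have hnr : (1 : ℝ) ≤ n := by exact_mod_cast hn1'
    have hhalf : 0 ≤ (1 / 2 : ℝ) ^ n * μ ^ 2 := by positivity
    split_ifs with hc
    · refine (min_le_right _ _).trans ?_
      have hk1 : 1 ≤ (n + 1) / 2 := by omega
      have hk2 : (n + 1) / 2 ≤ t := by omega
      have h1 := hov ((n + 1) / 2) hk1 hk2
      have h2 : (n : ℝ) / 2 ≤ (((n + 1) / 2 : ℕ) : ℝ) := by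
        rw [div_le_iff₀ (by norm_num)]
        have : n ≤ (n + 1) / 2 * 2 := by omega
        exact_mod_cast this
      have h3 : B / Real.sqrt ((((n + 1) / 2 : ℕ) : ℝ) * t) ≤
          B * Real.sqrt 2 / Real.sqrt t * (1 / Real.sqrt n) := by
        have h4 : Real.sqrt ((n : ℝ) / 2 * t) ≤ Real.sqrt ((((n + 1) / 2 : ℕ) : ℝ) * t) :=
          Real.sqrt_le_sqrt (mul_le_mul_of_nonneg_right h2 (by positivity))
        have h5 : 0 < Real.sqrt ((n : ℝ) / 2 * t) := Real.sqrt_pos.mpr (by positivity)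
        calc B / Real.sqrt ((((n + 1) / 2 : ℕ) : ℝ) * t)
            ≤ B / Real.sqrt ((n : ℝ) / 2 * t) := div_le_div_of_nonneg_left (by linarith) h5 h4
          _ = B * Real.sqrt 2 / Real.sqrt t * (1 / Real.sqrt n) := by
              rw [Real.sqrt_mul (by positivity), Real.sqrt_div (by positivity)]
              have h6 : Real.sqrt (n : ℝ) ≠ 0 := (Real.sqrt_pos.mpr (by positivity)).ne'
              have h7 : Real.sqrt (t : ℝ) ≠ 0 := (Real.sqrt_pos.mpr (by positivity)).ne'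
              have h8 : Real.sqrt (2 : ℝ) ≠ 0 := (Real.sqrt_pos.mpr (by norm_num)).ne'
              field_simp
      have h9 : (2 * s2) ^ n * ∑ z, (u z) ^ 2 ≤ (1 / 2) ^ n * μ ^ 2 := by
        refine mul_le_mul (pow_le_pow_left₀ (by positivity) (by linarith) n) hsq hsq0 (by positivity)
      linarith
    · refine (min_le_left _ _).trans ?_
      rw [← hμ]
      linarith
  -- the three sums
  have hS1 : ∑ n ∈ Finset.Icc 1 T,
      (if n ≤ n1 then B * Real.sqrt 2 / Real.sqrt t * (1 / Real.sqrt n) else 0) ≤ μ ^ 2 := by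
    rw [← Finset.sum_filter]
    have hsub : (Finset.Icc 1 T).filter (fun n => n ≤ n1) ⊆ Finset.Icc 1 n1 := by
      intro n hn
      rw [Finset.mem_filter, Finset.mem_Icc] at hn
      exact Finset.mem_Icc.mpr ⟨hn.1.1, hn.2⟩
    have h1 : ∑ n ∈ (Finset.Icc 1 T).filter (fun n => n ≤ n1),
        B * Real.sqrt 2 / Real.sqrt t * (1 / Real.sqrt n) ≤
        ∑ n ∈ Finset.Icc 1 n1, B * Real.sqrt 2 / Real.sqrt t * (1 / Real.sqrt n) :=
      Finset.sum_le_sum_of_subset_of_nonneg hsub fun n _ _ => by positivity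
    refine h1.trans ?_
    rw [← Finset.mul_sum]
    have h2 : ∑ n ∈ Finset.Icc 1 n1, 1 / Real.sqrt (n : ℝ) ≤ 2 * Real.sqrt ν :=
      (sum_inv_sqrt n1).trans (mul_le_mul_of_nonneg_left (Real.sqrt_le_sqrt hn1ν) (by norm_num))
    have h3 : B * Real.sqrt 2 / Real.sqrt t * ∑ n ∈ Finset.Icc 1 n1, 1 / Real.sqrt (n : ℝ) ≤
        B * Real.sqrt 2 / Real.sqrt t * (2 * Real.sqrt ν) :=
      mul_le_mul_of_nonneg_left h2 (by positivity)
    refine h3.trans ?_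
    have h4 : Real.sqrt ν = Real.sqrt t / Real.sqrt K := by
      rw [hν, Real.sqrt_div (by positivity)]
    have h5 : Real.sqrt K = 2 ^ 10 * B * (m : ℝ) ^ 4 := by
      rw [hK, show (2 : ℝ) ^ 20 * B ^ 2 * (m : ℝ) ^ 8 = (2 ^ 10 * B * (m : ℝ) ^ 4) ^ 2 by ring]
      exact Real.sqrt_sq (by positivity)
    rw [h4, h5]
    have h7 : Real.sqrt (t : ℝ) ≠ 0 := (Real.sqrt_pos.mpr (by positivity)).ne'
    have h8 : Real.sqrt 2 ≤ 2 := by
      rw [Real.sqrt_le_left (by norm_num)]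
      norm_num
    have h9 : B * Real.sqrt 2 / Real.sqrt t * (2 * (Real.sqrt t / (2 ^ 10 * B * (m : ℝ) ^ 4))) =
        Real.sqrt 2 / (512 * (m : ℝ) ^ 4) := by
      field_simp
      ring
    rw [h9]
    have h10 : (1 / (16 * (m : ℝ) ^ 2)) ^ 2 ≤ μ ^ 2 := pow_le_pow_left₀ (by positivity) hμ1 2
    refine le_trans ?_ h10
    calc Real.sqrt 2 / (512 * (m : ℝ) ^ 4) ≤ 2 / (512 * (m : ℝ) ^ 4) :=
          div_le_div_of_nonneg_right h8 (by positivity)
      _ = (1 / (16 * (m : ℝ) ^ 2)) ^ 2 := by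
          field_simp
          norm_num
  have hS2 : ∑ n ∈ Finset.Icc 1 T, (1 / 2 : ℝ) ^ n * μ ^ 2 ≤ μ ^ 2 := by
    rw [← Finset.sum_mul]
    have h1 := sum_half T
    have h2 : ∑ n ∈ Finset.Icc 1 T, (1 / 2 : ℝ) ^ n ≤ 1 := by
      have : (0 : ℝ) ≤ (1 / 2) ^ T := by positivity
      linarith
    calc (∑ n ∈ Finset.Icc 1 T, (1 / 2 : ℝ) ^ n) * μ ^ 2 ≤ 1 * μ ^ 2 :=
          mul_le_mul_of_nonneg_right h2 (sq_nonneg _)
      _ = μ ^ 2 := one_mul _
  have hS3 : ∑ n ∈ Finset.Icc 1 T, (if n ≤ n1 then 0 else μ ^ 2 * rr n) ≤ 15 / 2 * Y * μ ^ 2 := by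
    have h1 : ∑ n ∈ Finset.Icc 1 T, (if n ≤ n1 then 0 else μ ^ 2 * rr n) ≤
        μ ^ 2 * ∑ n ∈ Finset.Icc (n1 + 1) T, rr n := by
      rw [Finset.mul_sum]
      have h2 : ∀ n ∈ Finset.Icc 1 T, (if n ≤ n1 then 0 else μ ^ 2 * rr n) =
          if n ∈ Finset.Icc (n1 + 1) T then μ ^ 2 * rr n else 0 := by
        intro n hn
        rw [Finset.mem_Icc] at hn
        by_cases hc : n ≤ n1
        · rw [if_pos hc, if_neg (by rw [Finset.mem_Icc]; omega)]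
        · rw [if_neg hc, if_pos (by rw [Finset.mem_Icc]; omega)]
      rw [Finset.sum_congr rfl h2, ← Finset.sum_filter]
      refine Finset.sum_le_sum_of_subset_of_nonneg ?_ fun n _ _ =>
        mul_nonneg (sq_nonneg _) (hRR.1 n).le
      intro n hn
      rw [Finset.mem_filter] at hn
      exact hn.2
    refine h1.trans ?_
    rcases Nat.lt_or_ge n1 T with hlt | hge
    · obtain ⟨k, rfl⟩ : ∃ k, T = n1 + k := ⟨T - n1, by omega⟩
      rw [sum_rr_tail]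
      have h3 := hRR.2.2.2.2.1 n1 (n1 + k) hn1_1 (by omega)
      have h4 : ((n1 + k : ℕ) : ℝ) / n1 ≤ 2 * K * (1 + ((n1 + k : ℕ) : ℝ) / t) := by
        have h5 : ν / 2 ≤ n1 := by linarith
        have h6 : (t : ℝ) / (2 * K) ≤ n1 := by
          have : (t : ℝ) / (2 * K) = ν / 2 := by rw [hν]; field_simp
          rw [this]; exact h5
        have h7 : 0 < (t : ℝ) / (2 * K) := by positivity
        calc ((n1 + k : ℕ) : ℝ) / n1 ≤ ((n1 + k : ℕ) : ℝ) / (t / (2 * K)) :=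
              div_le_div_of_nonneg_left (by positivity) h7 h6
          _ = 2 * K * (((n1 + k : ℕ) : ℝ) / t) := by field_simp
          _ ≤ 2 * K * (1 + ((n1 + k : ℕ) : ℝ) / t) :=
              mul_le_mul_of_nonneg_left (by linarith) (by positivity)
      have h8 : Real.log (((n1 + k : ℕ) : ℝ) / n1) ≤ 15 * Y := by
        have h9 : 0 < ((n1 + k : ℕ) : ℝ) / n1 := by positivity
        refine (Real.log_le_log h9 h4).trans ?_
        have h10 : 2 * K * (1 + ((n1 + k : ℕ) : ℝ) / t) =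
            2 ^ 21 * (B ^ 2 * ((m : ℝ) ^ 8 * (1 + ((n1 + k : ℕ) : ℝ) / t))) := by
          rw [hK]; ring
        have hm8 : (m : ℝ) ^ 8 ≠ 0 := by positivity
        have hB2 : B ^ 2 ≠ 0 := by positivity
        have hR0 : (1 + ((n1 + k : ℕ) : ℝ) / t) ≠ 0 := by positivity
        rw [h10, Real.log_mul (by positivity) (by positivity), Real.log_mul hB2 (by positivity),
          Real.log_mul hm8 hR0, Real.log_pow, Real.log_pow, Real.log_pow, hY]
        have hl2 := Real.log_two_lt_d9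
        push_cast at hlR ⊢
        linarith
      calc μ ^ 2 * (RR (n1 + k) - RR n1) ≤ μ ^ 2 * (1 / 2 * (15 * Y)) :=
            mul_le_mul_of_nonneg_left (h3.trans (by linarith)) (sq_nonneg _)
        _ = 15 / 2 * Y * μ ^ 2 := by ring
    · rw [Finset.Icc_eq_empty (by omega), Finset.sum_empty, mul_zero]
      positivity
  calc ∑ n ∈ Finset.Icc 1 T, bb W s2 u n
      ≤ ∑ n ∈ Finset.Icc 1 T,
        ((if n ≤ n1 then B * Real.sqrt 2 / Real.sqrt t * (1 / Real.sqrt n) else 0) +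
        (1 / 2) ^ n * μ ^ 2 + (if n ≤ n1 then 0 else μ ^ 2 * rr n)) := Finset.sum_le_sum hpt
    _ ≤ μ ^ 2 + μ ^ 2 + 15 / 2 * Y * μ ^ 2 := by
        rw [Finset.sum_add_distrib, Finset.sum_add_distrib]
        linarith
    _ ≤ 10 * Y * μ ^ 2 := by
        nlinarith [mul_le_mul_of_nonneg_right hY1 (sq_nonneg μ), sq_nonneg μ]

/-- the conclusion of `S_LTC` with the constant `C` -/
def LTCc (C : ℝ) : Prop := ∀ (C0 : ℝ) (N0 M : ℕ) [NeZero M] (W : Wlk (ZMod M × ZMod M) C0 N0),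
  IsTor W →
  ∀ (Ω : Type) [MeasurableSpace Ω] (P : Measure Ω) [IsProbabilityMeasure P] (s2 κ s' : ℝ)
    (η : ℕ → ZMod M × ZMod M → Ω → ℝ) (w : ZMod M × ZMod M → ℝ) (t T m a : ℕ) (lo hi : Fin m → ℤ)
    (Lg a0 μ0 D : ℝ), 0 ≤ s2 → Noise P s2 κ η → 1 ≤ T → 1 ≤ m → 1 ≤ a → t + T ≤ N0 →
  (∀ z, 0 ≤ w z) → (∀ z, w z ≠ 0 → |X1 z| ≤ t) → (∀ i, lo i ≤ hi i) →
  (∀ i j, i < j → hi i + a ≤ lo j) →
  Lg = Real.log (2 + 64 * (T : ℝ) / (a : ℝ) ^ 2) → 80 * m * Real.sqrt Lg / a ≤ a0 → a0 ≤ 1 / 2 →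
  s' = s2 / (1 - a0 ^ 2) → 0 < μ0 → (∀ i, μ0 ≤ ∑ z, strip w (lo i) (hi i) z) → 1 ≤ D →
  (∀ i, s' * UU s' T * ∑ n ∈ Finset.Icc 1 T, bb W a0 (strip w (lo i) (hi i)) n ≤
    (D - 1) * (∑ z, strip w (lo i) (hi i) z) ^ 2) →
  P.real {ω | ∑ z, w z * Zr W (cfg η ω) T z < μ0 / 4 * Real.exp (-(C * (m : ℝ) ^ 2 * Lg ^ 2))} ≤
    (1 - 1 / (16 * D)) ^ m

/-- bound for the logarithm -/
theorem Lg_bound {t T m a : ℕ} {B Y : ℝ} (ht : 1 ≤ t) (hm : 1 ≤ m) (hB : 1 ≤ B)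
    (hY : Y = 1 + Real.log B + Real.log (1 + (T : ℝ) / t) + Real.log m)
    (ha : Real.sqrt t / (8192 * B * (m : ℝ) ^ 4) ≤ a) :
    0 ≤ Real.log (2 + 64 * (T : ℝ) / (a : ℝ) ^ 2) ∧
    Real.log (2 + 64 * (T : ℝ) / (a : ℝ) ^ 2) ≤ 32 * Y := by
  have hm' : (1 : ℝ) ≤ m := by exact_mod_cast hm
  have ht' : (1 : ℝ) ≤ t := by exact_mod_cast ht
  have hlB : 0 ≤ Real.log B := Real.log_nonneg hB
  have hlm : 0 ≤ Real.log m := Real.log_nonneg hm'
  have hTt : 0 ≤ (T : ℝ) / t := by positivity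
  have hR1 : 1 ≤ 1 + (T : ℝ) / t := by linarith
  have hlR : 0 ≤ Real.log (1 + (T : ℝ) / t) := Real.log_nonneg hR1
  have hx0 : 0 < Real.sqrt (t : ℝ) := Real.sqrt_pos.mpr (by positivity)
  have hx2 : Real.sqrt (t : ℝ) ^ 2 = t := Real.sq_sqrt (by positivity)
  have hq0 : 0 < Real.sqrt t / (8192 * B * (m : ℝ) ^ 4) := by positivity
  have ha0 : (0 : ℝ) < a := lt_of_lt_of_le hq0 ha
  have h1 : 0 ≤ 64 * (T : ℝ) / (a : ℝ) ^ 2 := by positivity
  refine ⟨Real.log_nonneg (by linarith), ?_⟩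
  have h2 : (t : ℝ) / (2 ^ 26 * B ^ 2 * (m : ℝ) ^ 8) ≤ (a : ℝ) ^ 2 := by
    have h3 := pow_le_pow_left₀ hq0.le ha 2
    have h4 : (Real.sqrt t / (8192 * B * (m : ℝ) ^ 4)) ^ 2 =
        (t : ℝ) / (2 ^ 26 * B ^ 2 * (m : ℝ) ^ 8) := by
      rw [div_pow, hx2]
      congr 1
      ring
    rw [h4] at h3
    exact h3
  have h5 : 64 * (T : ℝ) / (a : ℝ) ^ 2 ≤ 2 ^ 32 * B ^ 2 * (m : ℝ) ^ 8 * ((T : ℝ) / t) := by
    calc 64 * (T : ℝ) / (a : ℝ) ^ 2 ≤ 64 * (T : ℝ) / ((t : ℝ) / (2 ^ 26 * B ^ 2 * (m : ℝ) ^ 8)) :=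
          div_le_div_of_nonneg_left (by positivity) (by positivity) h2
      _ = 2 ^ 32 * B ^ 2 * (m : ℝ) ^ 8 * ((T : ℝ) / t) := by
          field_simp
          ring
  have h6 : (2 : ℝ) ≤ 2 ^ 32 * B ^ 2 * (m : ℝ) ^ 8 := by
    have e1 : (1 : ℝ) ≤ B ^ 2 := one_le_pow₀ hB
    have e2 : (1 : ℝ) ≤ (m : ℝ) ^ 8 := one_le_pow₀ hm'
    have e3 : (1 : ℝ) ≤ B ^ 2 * (m : ℝ) ^ 8 := by nlinarith
    nlinarith
  have h7 : 2 + 64 * (T : ℝ) / (a : ℝ) ^ 2 ≤
      2 ^ 32 * (B ^ 2 * ((m : ℝ) ^ 8 * (1 + (T : ℝ) / t))) := by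
    have : 2 ^ 32 * (B ^ 2 * ((m : ℝ) ^ 8 * (1 + (T : ℝ) / t))) =
        2 ^ 32 * B ^ 2 * (m : ℝ) ^ 8 + 2 ^ 32 * B ^ 2 * (m : ℝ) ^ 8 * ((T : ℝ) / t) := by ring
    rw [this]
    linarith
  refine (Real.log_le_log (by linarith) h7).trans ?_
  have hm8 : (m : ℝ) ^ 8 ≠ 0 := by positivity
  have hB2 : B ^ 2 ≠ 0 := by positivity
  have hR0 : (1 + (T : ℝ) / t) ≠ 0 := by positivity
  rw [Real.log_mul (by positivity) (by positivity), Real.log_mul hB2 (by positivity),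
    Real.log_mul hm8 hR0, Real.log_pow, Real.log_pow, Real.log_pow, hY]
  have hl2 := Real.log_two_lt_d9
  push_cast
  linarith

/-- the core: a weight whose first marginal has no concentration -/
theorem core {C0 : ℝ} {N0 M : ℕ} [NeZero M] (hQNT : S_QNT) (hRR : S_RR)
    (W : Wlk (ZMod M × ZMod M) C0 N0) (hW : IsTor W) {C1 : ℝ} (hC1 : 1 ≤ C1) (hL : LTCc C1)
    {Ω : Type} [MeasurableSpace Ω] (P : Measure Ω) [IsProbabilityMeasure P] {s2 κ s' : ℝ}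
    (η : ℕ → ZMod M × ZMod M → Ω → ℝ) (u : ZMod M × ZMod M → ℝ) {t T m a : ℕ} {B Y D1 F : ℝ}
    (hs0 : 0 < s2) (hs1 : s2 ≤ 1 / 4) (hη : Noise P s2 κ η) (ht : 1 ≤ t) (hT : 1 ≤ T) (hm : 1 ≤ m)
    (hB : 1 ≤ B) (htT : t + T ≤ N0) (hs' : s' = s2 / (1 - s2 ^ 2))
    (hY : Y = 1 + Real.log B + Real.log (1 + (T : ℝ) / t) + Real.log m) (hD1 : 0 ≤ D1)
    (hUU : s' * UU s' T ≤ D1)
    (hbig : (5000000 + 1024 * C1) * B * (m : ℝ) ^ 5 * Y / s2 ≤ Real.sqrt t)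
    (ha1 : 1 ≤ a) (ha : Real.sqrt t / (8192 * B * (m : ℝ) ^ 4) ≤ a)
    (hu : ∀ z, 0 ≤ u z) (husupp : ∀ z, u z ≠ 0 → |X1 z| ≤ t)
    (hov : ∀ n : ℕ, 1 ≤ n → n ≤ t → ov W u n ≤ B / Real.sqrt ((n : ℝ) * t))
    (hsup : ∀ z, u z ≤ 1 / (16 * (m : ℝ) ^ 2)) (hF : F = ∑ z, u z) (hF1 : 1 / (4 * (m : ℝ)) ≤ F)
    (hwin : ∀ y : ℤ, ∑ x ∈ Finset.Ico y (y + a), mg u x ≤ F / (4 * m)) :
    P.real {ω | ∑ z, u z * Zr W (cfg η ω) T z <
      Real.exp (-((5000000 + 1024 * C1) * (m : ℝ) ^ 2 * Y ^ 2))} ≤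
      (1 - 1 / ((5000000 + 1024 * C1) * (1 + D1 * Y))) ^ m := by
  have hm' : (1 : ℝ) ≤ m := by exact_mod_cast hm
  have ht' : (1 : ℝ) ≤ t := by exact_mod_cast ht
  have hlB : 0 ≤ Real.log B := Real.log_nonneg hB
  have hlm : 0 ≤ Real.log m := Real.log_nonneg hm'
  have hTt : 0 ≤ (T : ℝ) / t := by positivity
  have hlR : 0 ≤ Real.log (1 + (T : ℝ) / t) := Real.log_nonneg (by linarith)
  have hY1 : 1 ≤ Y := by rw [hY]; linarith
  have hYm : 1 + Real.log m ≤ Y := by rw [hY]; linarith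
  have hx0 : 0 < Real.sqrt (t : ℝ) := Real.sqrt_pos.mpr (by positivity)
  have hx2 : Real.sqrt (t : ℝ) ^ 2 = t := Real.sq_sqrt (by positivity)
  have ha0 : (0 : ℝ) < a := by exact_mod_cast ha1
  have hF0 : 0 < F := lt_of_lt_of_le (by positivity) hF1
  obtain ⟨hLg0, hLg1⟩ := Lg_bound (T := T) ht hm hB hY ha
  -- the interval of the first coordinate
  have hin : ∀ z, u z ≠ 0 → X1 z ∈ Finset.Icc (-(t : ℤ)) t := by
    intro z hz
    have h := abs_le.mp (husupp z hz)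
    exact Finset.mem_Icc.mpr h
  obtain ⟨lo, hi, hlohi, hsep, hmass⟩ := hQNT (mg u) (Finset.Icc (-(t : ℤ)) t) m a F hm ha1
    (mg_nonneg hu)
    (by
      intro x hx
      unfold mg
      refine Finset.sum_eq_zero fun z _ => ?_
      split_ifs with h
      · by_contra hne
        exact hx (h ▸ hin z hne)
      · rfl)
    (by
      rw [hF, sum_mg]
      refine Finset.sum_congr rfl fun z _ => ?_
      split_ifs with h
      · rfl
      · by_contra hne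
        exact h (hin z hne))
    hF0 hwin
  have hμ : ∀ i, 1 / (16 * (m : ℝ) ^ 2) ≤ ∑ z, strip u (lo i) (hi i) z := by
    intro i
    rw [strip_sum]
    refine le_trans ?_ (hmass i)
    rw [le_div_iff₀ (by positivity)]
    refine le_trans (le_of_eq ?_) hF1
    field_simp
    norm_num
  -- the size of t
  have hM1 : (5000000 : ℝ) * B * (m : ℝ) ^ 5 * Y / s2 ≤ Real.sqrt t := by
    refine le_trans ?_ hbig
    gcongr
    linarith
  have hM2 : (20000000 : ℝ) * B * (m : ℝ) ^ 4 ≤ Real.sqrt t := by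
    refine le_trans ?_ hM1
    rw [le_div_iff₀ hs0]
    have e1 : (m : ℝ) ^ 4 ≤ (m : ℝ) ^ 5 := pow_le_pow_right₀ hm' (by norm_num)
    have e2 : B * (m : ℝ) ^ 4 ≤ B * (m : ℝ) ^ 5 := mul_le_mul_of_nonneg_left e1 (by linarith)
    have e3 : B * (m : ℝ) ^ 5 ≤ B * (m : ℝ) ^ 5 * Y := le_mul_of_one_le_right (by positivity) hY1
    have e4 : B * (m : ℝ) ^ 4 * s2 ≤ B * (m : ℝ) ^ 4 * (1 / 4) :=
      mul_le_mul_of_nonneg_left hs1 (by positivity)
    nlinarith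
  have hbt : (2 : ℝ) ^ 20 * B ^ 2 * (m : ℝ) ^ 8 ≤ t := by
    have e1 : (2 : ℝ) ^ 10 * B * (m : ℝ) ^ 4 ≤ Real.sqrt t := by
      refine le_trans ?_ hM2
      have : 0 ≤ B * (m : ℝ) ^ 4 := by positivity
      nlinarith
    have e2 := pow_le_pow_left₀ (by positivity) e1 2
    rw [hx2] at e2
    refine le_trans (le_of_eq ?_) e2
    ring
  -- the drift
  have hdrift : 80 * m * Real.sqrt (Real.log (2 + 64 * (T : ℝ) / (a : ℝ) ^ 2)) / a ≤ s2 := by
    have e1 : Real.sqrt (Real.log (2 + 64 * (T : ℝ) / (a : ℝ) ^ 2)) ≤ 6 * Y := by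
      rw [Real.sqrt_le_left (by positivity)]
      nlinarith
    rw [div_le_iff₀ ha0]
    have e2 : (5000000 : ℝ) * m * Y / (8192 * s2) ≤ a := by
      refine le_trans ?_ ha
      rw [div_le_div_iff₀ (by positivity) (by positivity)]
      have e3 := mul_le_mul_of_nonneg_right hM1 (show (0 : ℝ) ≤ 8192 * s2 by positivity)
      refine le_trans (le_of_eq ?_) e3
      field_simp
    have e4 : (5000000 : ℝ) * m * Y / 8192 ≤ s2 * a := by
      have e5 := mul_le_mul_of_nonneg_left e2 hs0.le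
      refine le_trans (le_of_eq ?_) e5
      field_simp
    have e6 : 80 * (m : ℝ) * Real.sqrt (Real.log (2 + 64 * (T : ℝ) / (a : ℝ) ^ 2)) ≤
        80 * (m : ℝ) * (6 * Y) := mul_le_mul_of_nonneg_left e1 (by positivity)
    have e7 : 0 ≤ (m : ℝ) * Y := by positivity
    refine e6.trans (le_trans ?_ e4)
    rw [le_div_iff₀ (by norm_num)]
    nlinarith
  -- the second moments
  have hDm : ∀ i, s' * UU s' T * ∑ n ∈ Finset.Icc 1 T, bb W s2 (strip u (lo i) (hi i)) n ≤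
      ((1 + 10 * (D1 * Y)) - 1) * (∑ z, strip u (lo i) (hi i) z) ^ 2 := by
    intro i
    have hb := bb_sum hRR W (strip u (lo i) (hi i)) t T m B Y s2 _ hs0 hs1 ht hT hm hB hY hbt
      (strip_nonneg hu _ _)
      (fun n hn1 hn2 => (ov_mono W (strip_nonneg hu _ _) (strip_le hu _ _) n).trans (hov n hn1 hn2))
      rfl (hμ i)
      (fun z => ((strip_le hu _ _ z).trans (hsup z)).trans (hμ i))
    have hb0 : 0 ≤ ∑ n ∈ Finset.Icc 1 T, bb W s2 (strip u (lo i) (hi i)) n := by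
      refine Finset.sum_nonneg fun n _ => ?_
      unfold bb
      refine le_min (mul_nonneg (sq_nonneg _) (hRR.1 n).le) (add_nonneg (ov_nonneg W _ _)
        (mul_nonneg (by positivity) (Finset.sum_nonneg fun z _ => sq_nonneg _)))
    calc s' * UU s' T * ∑ n ∈ Finset.Icc 1 T, bb W s2 (strip u (lo i) (hi i)) n
        ≤ D1 * ∑ n ∈ Finset.Icc 1 T, bb W s2 (strip u (lo i) (hi i)) n :=
          mul_le_mul_of_nonneg_right hUU hb0
      _ ≤ D1 * (10 * Y * (∑ z, strip u (lo i) (hi i) z) ^ 2) := mul_le_mul_of_nonneg_left hb hD1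
      _ = ((1 + 10 * (D1 * Y)) - 1) * (∑ z, strip u (lo i) (hi i) z) ^ 2 := by ring
  have hDY : 0 ≤ D1 * Y := by positivity
  have key := hL C0 N0 M W hW Ω P s2 κ s' η u t T m a lo hi
    (Real.log (2 + 64 * (T : ℝ) / (a : ℝ) ^ 2)) s2 (1 / (16 * (m : ℝ) ^ 2)) (1 + 10 * (D1 * Y))
    hs0.le hη hT hm ha1 htT hu husupp hlohi hsep rfl hdrift (by linarith) hs' (by positivity) hμ
    (by linarith) hDm
  -- the level
  have hlev : Real.exp (-((5000000 + 1024 * C1) * (m : ℝ) ^ 2 * Y ^ 2)) ≤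
      1 / (16 * (m : ℝ) ^ 2) / 4 * Real.exp (-(C1 * (m : ℝ) ^ 2 *
        (Real.log (2 + 64 * (T : ℝ) / (a : ℝ) ^ 2)) ^ 2)) := by
    have e1 : 1 / (16 * (m : ℝ) ^ 2) / 4 = Real.exp (-(6 * Real.log 2 + 2 * Real.log m)) := by
      have e2 : 6 * Real.log 2 + 2 * Real.log m = Real.log (2 ^ 6 * (m : ℝ) ^ 2) := by
        rw [Real.log_mul (by positivity) (by positivity), Real.log_pow, Real.log_pow]
        push_cast
        ring
      rw [e2, Real.exp_neg, Real.exp_log (by positivity)]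
      field_simp
      norm_num
    rw [e1, ← Real.exp_add, Real.exp_le_exp]
    have e3 : (Real.log (2 + 64 * (T : ℝ) / (a : ℝ) ^ 2)) ^ 2 ≤ (32 * Y) ^ 2 :=
      pow_le_pow_left₀ hLg0 hLg1 2
    have e4 : C1 * (m : ℝ) ^ 2 * (Real.log (2 + 64 * (T : ℝ) / (a : ℝ) ^ 2)) ^ 2 ≤
        C1 * (m : ℝ) ^ 2 * (32 * Y) ^ 2 := mul_le_mul_of_nonneg_left e3 (by positivity)
    have hl2 := Real.log_two_lt_d9
    have e5 : 1 ≤ (m : ℝ) ^ 2 := one_le_pow₀ hm'
    have e6 : Y ≤ Y ^ 2 := by nlinarith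
    have e7 : Y ^ 2 ≤ (m : ℝ) ^ 2 * Y ^ 2 := le_mul_of_one_le_left (sq_nonneg _) e5
    nlinarith
  have hmono : P.real {ω | ∑ z, u z * Zr W (cfg η ω) T z <
      Real.exp (-((5000000 + 1024 * C1) * (m : ℝ) ^ 2 * Y ^ 2))} ≤
      P.real {ω | ∑ z, u z * Zr W (cfg η ω) T z < 1 / (16 * (m : ℝ) ^ 2) / 4 *
        Real.exp (-(C1 * (m : ℝ) ^ 2 *
        (Real.log (2 + 64 * (T : ℝ) / (a : ℝ) ^ 2)) ^ 2))} := by
    refine measureReal_mono ?_
    intro ω hω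
    exact lt_of_lt_of_le hω hlev
  refine hmono.trans (key.trans ?_)
  refine pow_le_pow_left₀ ?_ ?_ m
  · have e1 : 1 / (16 * (1 + 10 * (D1 * Y))) ≤ 1 := by
      rw [div_le_one (by positivity)]
      linarith
    linarith
  · have e1 : 1 / ((5000000 + 1024 * C1) * (1 + D1 * Y)) ≤ 1 / (16 * (1 + 10 * (D1 * Y))) := by
      refine one_div_le_one_div_of_le (by positivity) ?_
      nlinarith
    linarith

/-- **LTS** -/
theorem t_LTS : S_LTS := by
  intro hLTC hDZB hDSM hNB hIND hMEAS hCMP hSUR hPRD hPZ hQNT hBOX hSWP hRR hTORA hOV C0 hC0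
  obtain ⟨C1, hC1, hL⟩ := hLTC hDZB hDSM hNB hIND hMEAS hCMP hSUR hPRD hPZ
  refine ⟨5000000 + 1024 * C1, by linarith, ?_⟩
  intro N0 M _ W hW Ω _ P _ s2 κ s' η w t T m B Y D1 hs0 hs1 hη ht hT hm hB htT hG hs' hY hD1 hUU
    hbig
  have hm' : (1 : ℝ) ≤ m := by exact_mod_cast hm
  have ht' : (1 : ℝ) ≤ t := by exact_mod_cast ht
  have hlB : 0 ≤ Real.log B := Real.log_nonneg hB
  have hlm : 0 ≤ Real.log m := Real.log_nonneg hm'
  have hTt : 0 ≤ (T : ℝ) / t := by positivity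
  have hlR : 0 ≤ Real.log (1 + (T : ℝ) / t) := Real.log_nonneg (by linarith)
  have hY1 : 1 ≤ Y := by rw [hY]; linarith
  have hx0 : 0 < Real.sqrt (t : ℝ) := Real.sqrt_pos.mpr (by positivity)
  have hx2 : Real.sqrt (t : ℝ) ^ 2 = t := Real.sq_sqrt (by positivity)
  have hM2 : (20000000 : ℝ) * B * (m : ℝ) ^ 4 ≤ Real.sqrt t := by
    refine le_trans ?_ hbig
    rw [le_div_iff₀ hs0]
    have e1 : (m : ℝ) ^ 4 ≤ (m : ℝ) ^ 5 := pow_le_pow_right₀ hm' (by norm_num)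
    have e2 : B * (m : ℝ) ^ 4 ≤ B * (m : ℝ) ^ 5 := mul_le_mul_of_nonneg_left e1 (by linarith)
    have e3 : B * (m : ℝ) ^ 5 ≤ B * (m : ℝ) ^ 5 * Y := le_mul_of_one_le_right (by positivity) hY1
    have e4 : B * (m : ℝ) ^ 4 * s2 ≤ B * (m : ℝ) ^ 4 * (1 / 4) :=
      mul_le_mul_of_nonneg_left hs1 (by positivity)
    have e5 : 0 ≤ B * (m : ℝ) ^ 5 * Y := by positivity
    have e6 : 0 ≤ C1 * (B * (m : ℝ) ^ 5 * Y) := by positivity
    nlinarith
  -- the side of the boxes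
  set q : ℝ := Real.sqrt t / (4096 * B * (m : ℝ) ^ 4) with hq
  set a : ℕ := ⌊q⌋₊ with ha
  have hBm : 0 < B * (m : ℝ) ^ 4 := by positivity
  have hq1 : 1 ≤ q := by
    rw [hq, le_div_iff₀ (by positivity)]
    nlinarith
  have ha1 : 1 ≤ a := Nat.one_le_floor_iff _ |>.mpr hq1
  have ha1r : (1 : ℝ) ≤ a := by exact_mod_cast ha1
  have haq : (a : ℝ) ≤ q := Nat.floor_le (by linarith)
  have haq2 : q < a + 1 := Nat.lt_floor_add_one q
  have ha2 : Real.sqrt t / (8192 * B * (m : ℝ) ^ 4) ≤ a := by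
    have e1 : Real.sqrt t / (8192 * B * (m : ℝ) ^ 4) = q / 2 := by
      rw [hq]
      field_simp
      norm_num
    rw [e1]
    linarith
  have hBm1 : 1 ≤ B * (m : ℝ) ^ 4 := by
    have e2 : (1 : ℝ) ≤ (m : ℝ) ^ 4 := one_le_pow₀ hm'
    nlinarith
  have hqx : q ≤ Real.sqrt t := by
    rw [hq]
    refine div_le_self hx0.le ?_
    nlinarith
  have hat : a ^ 2 ≤ t := by
    have e1 : (a : ℝ) ^ 2 ≤ Real.sqrt (t : ℝ) ^ 2 :=
      pow_le_pow_left₀ (by positivity) (haq.trans hqx) 2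
    rw [hx2] at e1
    exact_mod_cast e1
  -- the boxes
  have hbox : ∀ p r : ℤ, (∑ z, if (p ≤ X1 z ∧ X1 z < p + a) ∧ (r ≤ X2 z ∧ X2 z < r + a) then w z
      else 0) ≤ 1 / (16 * (m : ℝ) ^ 2) := by
    intro p r
    have h1 := hBOX hRR hTORA C0 N0 M W hW w t (a ^ 2) a p r hG.nonneg hG.cls
      (Nat.one_le_pow _ _ ha1) (by omega) le_rfl
    have h2 := hG.ov (a ^ 2) (Nat.one_le_pow _ _ ha1) hat
    have h3 : Real.sqrt (((a ^ 2 : ℕ) : ℝ) * t) = a * Real.sqrt t := by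
      push_cast
      rw [Real.sqrt_mul (by positivity), Real.sqrt_sq (by positivity)]
    rw [h3] at h2
    have h4 : 8 * ((a ^ 2 : ℕ) : ℝ) * ov W w (a ^ 2) ≤ (1 / (16 * (m : ℝ) ^ 2)) ^ 2 := by
      have e1 : 8 * ((a ^ 2 : ℕ) : ℝ) * ov W w (a ^ 2) ≤
          8 * ((a ^ 2 : ℕ) : ℝ) * (B / (a * Real.sqrt t)) :=
        mul_le_mul_of_nonneg_left h2 (by positivity)
      have e2 : 8 * ((a ^ 2 : ℕ) : ℝ) * (B / (a * Real.sqrt t)) = 8 * a * B / Real.sqrt t := by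
        push_cast
        field_simp
      have e3 : 8 * a * B / Real.sqrt t ≤ 8 * q * B / Real.sqrt t := by
        gcongr
      have e4 : 8 * q * B / Real.sqrt t = 1 / (512 * (m : ℝ) ^ 4) := by
        rw [hq]
        field_simp
        norm_num
      have e5 : (1 / (16 * (m : ℝ) ^ 2)) ^ 2 = 1 / (256 * (m : ℝ) ^ 4) := by
        rw [div_pow, one_pow]
        congr 1
        ring
      rw [e5]
      have e6 : 1 / (512 * (m : ℝ) ^ 4) ≤ 1 / (256 * (m : ℝ) ^ 4) := by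
        refine one_div_le_one_div_of_le (by positivity) ?_
        nlinarith [pow_pos (show (0 : ℝ) < m by linarith) 4]
      linarith
    exact (le_abs_self _).trans (abs_le_of_sq_le_sq (h1.trans h4) (by positivity))
  have hsupw : ∀ z, w z ≤ 1 / (16 * (m : ℝ) ^ 2) := by
    intro z
    refine le_trans ?_ (hbox (X1 z) (X2 z))
    have e1 : (if (X1 z ≤ X1 z ∧ X1 z < X1 z + a) ∧ (X2 z ≤ X2 z ∧ X2 z < X2 z + a) then w z
        else 0) = w z := by
      rw [if_pos]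
      refine ⟨⟨le_rfl, ?_⟩, le_rfl, ?_⟩ <;> omega
    calc w z = (if (X1 z ≤ X1 z ∧ X1 z < X1 z + a) ∧ (X2 z ≤ X2 z ∧ X2 z < X2 z + a) then w z
        else 0) := e1.symm
      _ ≤ ∑ z', if (X1 z ≤ X1 z' ∧ X1 z' < X1 z + a) ∧ (X2 z ≤ X2 z' ∧ X2 z' < X2 z + a) then w z'
        else 0 := by
          refine Finset.single_le_sum (f := fun z' => if (X1 z ≤ X1 z' ∧ X1 z' < X1 z + a) ∧
            (X2 z ≤ X2 z' ∧ X2 z' < X2 z + a) then w z' else 0) ?_ (Finset.mem_univ z)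
          intro z' _
          show 0 ≤ ite _ _ _
          split_ifs
          · exact hG.nonneg z'
          · exact le_rfl
  by_cases hwin : ∀ y : ℤ, ∑ x ∈ Finset.Ico y (y + a), mg w x ≤ 1 / (4 * (m : ℝ))
  · -- case 1
    exact core hQNT hRR W hW hC1 hL P η w hs0 hs1 hη ht hT hm hB htT hs' hY hD1 hUU hbig ha1 ha2
      hG.nonneg (fun z hz => (hW.cls_rng t z (hG.cls z hz)).1) (fun n h1 h2 => hG.ov n h1 h2)
      hsupw hG.sum.symm
      (by
        rw [div_le_one (by positivity)]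
        linarith)
      hwin
  · -- case 2
    push Not at hwin
    obtain ⟨y0, hy0⟩ := hwin
    obtain ⟨hsw1, hsw2, hsw3⟩ := hSWP C0 N0 M W hW
    set w1 : ZMod M × ZMod M → ℝ := fun z => if y0 ≤ X1 z ∧ X1 z < y0 + a then w z else 0 with hw1
    have hw1n : ∀ z, 0 ≤ w1 z := by
      intro z
      simp only [hw1]
      split_ifs
      · exact hG.nonneg z
      · exact le_rfl
    have hw1le : ∀ z, w1 z ≤ w z := by
      intro z
      simp only [hw1]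
      split_ifs
      · exact le_rfl
      · exact hG.nonneg z
    set u : ZMod M × ZMod M → ℝ := fun v => w1 v.swap with hu
    have hsumu : ∑ v, u v = ∑ z, w1 z := (Equiv.prodComm (ZMod M) (ZMod M)).sum_comp w1
    have hsumw1 : ∑ z, w1 z = ∑ x ∈ Finset.Ico y0 (y0 + a), mg w x := by
      rw [sum_mg]
      refine Finset.sum_congr rfl fun z _ => ?_
      simp only [hw1, Finset.mem_Ico]
    have hF1 : 1 / (4 * (m : ℝ)) ≤ ∑ v, u v := by
      rw [hsumu, hsumw1]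
      exact hy0.le
    have hwinu : ∀ y : ℤ, ∑ x ∈ Finset.Ico y (y + a), mg u x ≤ (∑ v, u v) / (4 * m) := by
      intro y
      have e1 : ∑ x ∈ Finset.Ico y (y + a), mg u x =
          ∑ z, if (y0 ≤ X1 z ∧ X1 z < y0 + a) ∧ (y ≤ X2 z ∧ X2 z < y + a) then w z else 0 := by
        rw [sum_mg, ← (Equiv.prodComm (ZMod M) (ZMod M)).sum_comp (fun z : ZMod M × ZMod M =>
          if (y0 ≤ X1 z ∧ X1 z < y0 + a) ∧ (y ≤ X2 z ∧ X2 z < y + a) then w z else 0)]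
        refine Finset.sum_congr rfl fun v _ => ?_
        have e2 : X2 ((Equiv.prodComm (ZMod M) (ZMod M)) v) = X1 v := rfl
        have e3 : u v = if y0 ≤ X1 ((Equiv.prodComm (ZMod M) (ZMod M)) v) ∧
            X1 ((Equiv.prodComm (ZMod M) (ZMod M)) v) < y0 + a then
            w ((Equiv.prodComm (ZMod M) (ZMod M)) v) else 0 := rfl
        rw [e2, e3]
        by_cases h1 : y ≤ X1 v ∧ X1 v < y + a
        · rw [if_pos (Finset.mem_Ico.mpr h1)]
          by_cases h2 : y0 ≤ X1 ((Equiv.prodComm (ZMod M) (ZMod M)) v) ∧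
            X1 ((Equiv.prodComm (ZMod M) (ZMod M)) v) < y0 + a
          · rw [if_pos h2, if_pos ⟨h2, h1⟩]
          · rw [if_neg h2, if_neg (fun h => h2 h.1)]
        · rw [if_neg (fun h => h1 (Finset.mem_Ico.mp h)), if_neg (fun h => h1 h.2)]
      rw [e1]
      refine (hbox y0 y).trans ?_
      rw [le_div_iff₀ (by positivity)]
      refine le_trans (le_of_eq ?_) hF1
      field_simp
      norm_num
    have key := core hQNT hRR W hW hC1 hL P (fun (n : ℕ) (v : ZMod M × ZMod M) => η n v.swap) u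
      hs0 hs1 (hsw3 Ω P s2 κ η hη) ht hT hm hB htT hs' hY hD1 hUU hbig ha1 ha2
      (fun v => hw1n v.swap)
      (by
        intro v hv
        have h1 : w v.swap ≠ 0 := by
          intro h0
          apply hv
          have := hw1le v.swap
          rw [h0] at this
          exact le_antisymm this (hw1n v.swap)
        exact (hW.cls_rng t v.swap (hG.cls v.swap h1)).2)
      (by
        intro n h1 h2
        refine le_trans (le_of_eq (hsw2 w1 n)) ?_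
        exact (ov_mono W hw1n hw1le n).trans (hG.ov n h1 h2))
      (fun v => (hw1le v.swap).trans (hsupw v.swap)) rfl hF1 hwinu
    refine le_trans (measureReal_mono ?_) key
    intro ω hω
    rw [Set.mem_ofPred_eq] at hω ⊢
    refine lt_of_le_of_lt ?_ hω
    have e1 := hsw1 (cfg η ω) w1 T
    have e2 : ∑ v, u v * Zr W (cfg (fun (n : ℕ) (v : ZMod M × ZMod M) => η n v.swap) ω) T v =
        ∑ v, w1 v * Zr W (cfg η ω) T v := by
      rw [e1]
      rfl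
    rw [e2]
    refine Finset.sum_le_sum fun v _ => mul_le_mul_of_nonneg_right (hw1le v) ?_
    exact ((hMEAS _ C0 N0 W Ω P s2 κ η hη).2.1 (cfg η ω) T v (fun n v => hη.gt n v ω)).le

end Pool.Agent.H200.CW
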